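import Mathlib
import Pool.Agent.H87R2.NielsenB

set_option autoImplicit false

/-!
# Quotients of `Aut(F_n)` by powers of Nielsen moves with infinitely many finite quotients
-/

namespace Pool.Agent.Results.MP_73474e_al.InfinitelyManyQuotients

open Pool.Agent.H87R2.NielsenA Pool.Agent.H87R2.NielsenB

/-- The endomorphism of the free group of rank `n ≥ 2` which sends the first basis element `a_1` to
`a_2 ^ e * a_1` and fixes the other basis elements (the basis is indexed by `0, 1, …, n - 1`). -/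
def move (n : ℕ) (hn : 2 ≤ n) (e : ℤ) : FreeGroup (Fin n) →* FreeGroup (Fin n) :=
  FreeGroup.lift fun i =>
    if (i : ℕ) = 0 then FreeGroup.of ⟨1, hn⟩ ^ e * FreeGroup.of i else FreeGroup.of i

lemma move_move (n : ℕ) (hn : 2 ≤ n) (e e' : ℤ) (h : e + e' = 0) :
    (move n hn e').comp (move n hn e) = MonoidHom.id _ := by
  refine FreeGroup.ext_hom _ _ fun i => ?_
  by_cases hi : (i : ℕ) = 0
  · simp only [move, MonoidHom.comp_apply, FreeGroup.lift_apply_of, hi, if_true, map_mul, map_zpow,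
      MonoidHom.id_apply, one_ne_zero, if_false]
    rw [← mul_assoc, ← zpow_add, h, zpow_zero, one_mul]
  · simp only [move, MonoidHom.comp_apply, FreeGroup.lift_apply_of, hi, if_false,
      MonoidHom.id_apply]

/-- The Nielsen move `a_1 ↦ a_2 a_1`, `a_i ↦ a_i` for `i ≥ 2`, of the free group of rank `n ≥ 2`. -/
def nielsen (n : ℕ) (hn : 2 ≤ n) : MulAut (FreeGroup (Fin n)) :=
  MonoidHom.toMulEquiv (move n hn 1) (move n hn (-1)) (move_move n hn 1 (-1) (by norm_num))
    (move_move n hn (-1) 1 (by norm_num))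

/-- The group `Q(n,m)`: the quotient of `Aut(F_n)` by the normal closure of the `m`-th power of the
Nielsen move. -/
abbrev Q (n : ℕ) (hn : 2 ≤ n) (m : ℕ) : Type :=
  MulAut (FreeGroup (Fin n)) ⧸ Subgroup.normalClosure {(nielsen n hn) ^ m}

/-- `G` has infinitely many pairwise non-isomorphic finite quotient groups. -/
def HasInfinitelyManyFiniteQuotients (G : Type) [Group G] : Prop :=
  ∃ (R : ℕ → Type) (_ : ∀ k, Group (R k)), (∀ k, Finite (R k)) ∧
    (∀ k, ∃ f : G →* R k, Function.Surjective f) ∧ ∀ k l, k ≠ l → IsEmpty (R k ≃* R l)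

lemma nielsen_pow (n : ℕ) (hn : 2 ≤ n) (m : ℕ) :
    (∀ i : Fin n, (i : ℕ) = 0 → ((nielsen n hn) ^ m) (FreeGroup.of i) =
      FreeGroup.of ⟨1, hn⟩ ^ m * FreeGroup.of i) ∧
    ∀ i : Fin n, (i : ℕ) ≠ 0 → ((nielsen n hn) ^ m) (FreeGroup.of i) = FreeGroup.of i := by
  have h0 : ∀ i : Fin n, (i : ℕ) = 0 → (nielsen n hn) (FreeGroup.of i) =
      FreeGroup.of ⟨1, hn⟩ * FreeGroup.of i := by
    intro i hi
    show move n hn 1 (FreeGroup.of i) = _
    rw [move, FreeGroup.lift_apply_of, if_pos hi, zpow_one]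
  have h1 : ∀ i : Fin n, (i : ℕ) ≠ 0 → (nielsen n hn) (FreeGroup.of i) = FreeGroup.of i := by
    intro i hi
    show move n hn 1 (FreeGroup.of i) = _
    rw [move, FreeGroup.lift_apply_of, if_neg hi]
  induction m with
  | zero => exact ⟨fun i _ => by simp, fun i _ => by simp⟩
  | succ m ih =>
    refine ⟨fun i hi => ?_, fun i hi => ?_⟩
    · rw [pow_succ', MulAut.mul_apply, ih.1 i hi, map_mul, map_pow, h0 i hi, h1 _ (by simp),
        ← mul_assoc, ← pow_succ]
    · rw [pow_succ', MulAut.mul_apply, ih.2 i hi, h1 i hi]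

/-- From finite quotients of unbounded order to infinitely many finite quotients. -/
lemma of_unbounded (G : Type) [Group G]
    (h : ∀ N : ℕ, ∃ (R : Type) (_ : Group R), Finite R ∧ N ≤ Nat.card R ∧
      ∃ f : G →* R, Function.Surjective f) : HasInfinitelyManyFiniteQuotients G := by
  let S : Set ℕ := {k | ∃ (R : Type) (_ : Group R), Finite R ∧ Nat.card R = k ∧
      ∃ f : G →* R, Function.Surjective f}
  have hS : S.Infinite := by
    rw [Set.infinite_iff_exists_gt]
    intro N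
    obtain ⟨R, i, hR, hN, hf⟩ := h (N + 1)
    exact ⟨Nat.card R, ⟨R, i, hR, rfl, hf⟩, by omega⟩
  let e : ℕ ↪ S := hS.natEmbedding
  have he : ∀ k, ∃ (R : Type) (_ : Group R), Finite R ∧ Nat.card R = (e k : ℕ) ∧
      ∃ f : G →* R, Function.Surjective f := fun k => (e k).2
  choose R i hR hc hf using he
  refine ⟨R, i, hR, hf, fun k l hkl => ⟨fun φ => hkl ?_⟩⟩
  apply e.injective
  apply Subtype.ext
  rw [← hc k, ← hc l]
  exact Nat.card_congr φ.toEquiv

/-- The finite quotients. -/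
lemma exists_quotient (n : ℕ) (hn : 2 ≤ n) (p : ℕ) (hp : p.Prime) (hnp : n ≤ p) (m : ℕ)
    (hm : p ^ 2 ∣ m) (N : ℕ) : ∃ (R : Type) (_ : Group R), Finite R ∧ N ≤ Nat.card R ∧
      ∃ f : Q n hn m →* R, Function.Surjective f := by
  classical
  have : Fact p.Prime := ⟨hp⟩
  -- linearly independent elements
  obtain ⟨v, hv⟩ : ∃ v : Fin n → FF p, LinearIndependent (ZMod p) v := by
    have hfin : Module.finrank (ZMod p) (FF p) = p := GaloisField.finrank p hp.ne_zero
    have b := Module.finBasisOfFinrankEq (ZMod p) (FF p) hfin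
    exact ⟨fun i => b (Fin.castLE hnp i), b.linearIndependent.comp _ (Fin.castLE_injective hnp)⟩
  set i0 : Fin n := ⟨0, by omega⟩ with hi0
  set i1 : Fin n := ⟨1, hn⟩ with hi1
  have h01 : i0 ≠ i1 := by simp [hi0, hi1]
  set q : ℕ := 2 * N + 1 with hq
  obtain ⟨mf, hmf, w, hw⟩ := psi_conj p n q v hv h01
  set P : Type := Equiv.Perm (GG p × ZMod q) with hP
  have : Finite (GG p × ZMod q) := by
    have : NeZero q := ⟨by omega⟩
    infer_instance
  have : Finite P := inferInstanceAs (Finite (Equiv.Perm (GG p × ZMod q)))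
  set ψ := psi p n q v i1 mf with hψ
  -- the finite set on which the automorphism group acts
  let X : Type := {χ : FreeGroup (Fin n) →* P // ∀ α : MulAut (FreeGroup (Fin n)),
    χ (α (FreeGroup.of i1)) ^ m = 1}
  have : Finite (FreeGroup (Fin n) →* P) :=
    Finite.of_equiv (Fin n → P) FreeGroup.lift
  have : Finite X := Subtype.finite
  let act : MulAut (FreeGroup (Fin n)) → X → X := fun β χ =>
    ⟨χ.1.comp (β⁻¹ : MulAut (FreeGroup (Fin n))).toMonoidHom, fun α => χ.2 (β⁻¹ * α)⟩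
  have act_mul : ∀ β γ χ, act (β * γ) χ = act β (act γ χ) := by
    intro β γ χ
    apply Subtype.ext
    refine MonoidHom.ext fun x => ?_
    show χ.1 (((β * γ)⁻¹ : MulAut (FreeGroup (Fin n))) x) =
      χ.1 ((γ⁻¹ : MulAut (FreeGroup (Fin n))) ((β⁻¹ : MulAut (FreeGroup (Fin n))) x))
    rw [mul_inv_rev]
    rfl
  have act_one : ∀ χ, act 1 χ = χ := by
    intro χ
    apply Subtype.ext
    refine MonoidHom.ext fun x => ?_
    show χ.1 ((1⁻¹ : MulAut (FreeGroup (Fin n))) x) = χ.1 x
    rw [inv_one]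
    rfl
  let ρ : MulAut (FreeGroup (Fin n)) →* Equiv.Perm X :=
    { toFun := fun β => ⟨act β, act β⁻¹, fun χ => by rw [← act_mul, inv_mul_cancel, act_one],
        fun χ => by rw [← act_mul, mul_inv_cancel, act_one]⟩
      map_one' := by
        ext1 χ
        exact act_one χ
      map_mul' := fun β γ => by
        ext1 χ
        exact act_mul β γ χ }
  have hker : ρ ((nielsen n hn) ^ m) = 1 := by
    have h1 : ∀ χ : X, χ.1.comp ((nielsen n hn) ^ m).toMonoidHom = χ.1 := by
      intro χ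
      refine FreeGroup.ext_hom _ _ fun i => ?_
      show χ.1 (((nielsen n hn) ^ m) (FreeGroup.of i)) = χ.1 (FreeGroup.of i)
      by_cases hi : (i : ℕ) = 0
      · rw [(nielsen_pow n hn m).1 i hi, map_mul, map_pow]
        have h2 := χ.2 1
        rw [MulAut.one_apply] at h2
        rw [h2, one_mul]
      · rw [(nielsen_pow n hn m).2 i hi]
    have h2 : ∀ χ : X, act ((nielsen n hn) ^ m)⁻¹ χ = χ := by
      intro χ
      apply Subtype.ext
      show χ.1.comp ((((nielsen n hn) ^ m)⁻¹)⁻¹ : MulAut (FreeGroup (Fin n))).toMonoidHom = χ.1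
      rw [inv_inv]
      exact h1 χ
    have h3 : ρ ((nielsen n hn) ^ m)⁻¹ = 1 := by
      ext1 χ
      exact h2 χ
    rw [map_inv, inv_eq_one] at h3
    exact h3
  have hle : Subgroup.normalClosure {(nielsen n hn) ^ m} ≤ ρ.ker := by
    apply Subgroup.normalClosure_le_normal
    rw [Set.singleton_subset_iff]
    exact hker
  let f : Q n hn m →* Equiv.Perm X := QuotientGroup.lift _ ρ hle
  refine ⟨f.range, inferInstance, inferInstance, ?_, f.rangeRestrict, f.rangeRestrict_surjective⟩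
  -- the size of the image
  let χ0 : X := ⟨ψ, fun α => by
    obtain ⟨k, rfl⟩ := hm
    rw [pow_mul, hψ, psi_primitive p n q v hv i1 hmf α i1, one_pow]⟩
  let g : Fin N → f.range := fun j =>
    f.rangeRestrict (QuotientGroup.mk (MulAut.conj (w ^ (j : ℕ)))⁻¹)
  have hg : Function.Injective g := by
    intro j k hjk
    have h1 : ρ (MulAut.conj (w ^ (j : ℕ)))⁻¹ = ρ (MulAut.conj (w ^ (k : ℕ)))⁻¹ :=
      congrArg Subtype.val hjk
    have h2 : act (MulAut.conj (w ^ (j : ℕ)))⁻¹ χ0 = act (MulAut.conj (w ^ (k : ℕ)))⁻¹ χ0 :=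
      Equiv.congr_fun h1 χ0
    have h3 : ∀ l : ℕ, (act (MulAut.conj (w ^ l))⁻¹ χ0).1 (FreeGroup.of i0) =
        ψ w ^ l * ψ (FreeGroup.of i0) * (ψ w ^ l)⁻¹ := by
      intro l
      show ψ ((((MulAut.conj (w ^ l))⁻¹)⁻¹ : MulAut (FreeGroup (Fin n))) (FreeGroup.of i0)) = _
      rw [inv_inv, MulAut.conj_apply, map_mul, map_mul, map_inv, map_pow]
    have h4 : (act (MulAut.conj (w ^ (j : ℕ)))⁻¹ χ0).1 (FreeGroup.of i0) =
        (act (MulAut.conj (w ^ (k : ℕ)))⁻¹ χ0).1 (FreeGroup.of i0) := by rw [h2]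
    rw [h3, h3] at h4
    have h5 := hw j k h4
    have h6 : ((2 * (j : ℕ) : ℕ) : ZMod q) = ((2 * (k : ℕ) : ℕ) : ZMod q) := by
      push_cast
      exact h5
    rw [ZMod.natCast_eq_natCast_iff'] at h6
    have hj := j.isLt
    have hk := k.isLt
    rw [Nat.mod_eq_of_lt (by omega), Nat.mod_eq_of_lt (by omega)] at h6
    ext
    omega
  have := Nat.card_le_card_of_injective g hg
  rwa [Nat.card_eq_fintype_card, Fintype.card_fin] at this

/-- Let `n ≥ 2` and let `p ≥ n` be a prime. For every multiple `m` of `p ^ 2` the group `Q(n,m)` has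
infinitely many finite quotients. -/
theorem result : ∀ (n : ℕ) (hn : 2 ≤ n) (p : ℕ), p.Prime → n ≤ p → ∀ m : ℕ, p ^ 2 ∣ m →
    HasInfinitelyManyFiniteQuotients (Q n hn m) :=
  fun n hn p hp hnp m hm => of_unbounded _ (exists_quotient n hn p hp hnp m hm)

end Pool.Agent.Results.MP_73474e_al.InfinitelyManyQuotients
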